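import Mathlib
import Pool.Agent.Helper53.HomStmt
import Pool.Agent.Helper53.HomH
import Pool.Agent.Helper53.CxFin
import Pool.Agent.Helper53.LBfin

set_option autoImplicit false

namespace Pool.Agent.Results.MP_75da70_an.NotThree

open Pool.Agent.Helper53
open Pool.Agent.Helper53.Homology

/-- For every compact Hausdorff space `X` the bidimension of `C(X, ℂ)` is different from three.
In particular `dg C(X, ℂ) = db C(X, ℂ) = 3` never happens. -/
theorem result (X : Type) [TopologicalSpace X] [CompactSpace X] [T2Space X] :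
    db C(X, ℂ) ≠ 3 := by
  intro h3
  have hres : (plusBMod C(X, ℂ)).HasResolution 3 := by
    by_contra hc
    have h4 := BMod.le_dh hc
    have h5 : ((3 + 1 : ℕ) : ℕ∞) ≤ 3 := h4.trans (le_of_eq h3)
    exact absurd h5 (by decide)
  have hvan : Dim3.Van4 C(X, ℂ) := CX.van4_of_hasResolution (BMod.of_ofC_hasResolution hres)
  obtain ⟨n, hn⟩ : ∃ n, CX.cb X n = ∅ := by
    by_contra hc
    push Not at hc
    exact LB.no_van4 hc hvan
  have h2 : (plusBMod C(X, ℂ)).HasResolution 2 := BMod.ofC_hasResolution
    (BanachHomology.Bim.hasResolution_two (CX.van3_of_van4 hn hvan)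
      BanachHomology.Bim.plusBim_rproj)
  have h6 : db C(X, ℂ) ≤ ((2 : ℕ) : ℕ∞) := BMod.dh_le h2
  rw [h3] at h6
  exact absurd h6 (by decide)

end Pool.Agent.Results.MP_75da70_an.NotThree
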